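import Mathlib
import Pool.Agent.TH829.RA.Final

/-!
# The Ramanujan conjecture at almost all places, uniformly in the representation

Let `K` be a number field and let `Π` be a unitary cuspidal automorphic representation of `GL_N` over `K`, `N ≥ 2`,
or, more generally, an isobaric sum of unitary cuspidal ones, for instance the lift to `GL_N` of a globally generic
cuspidal representation of a quasi-split classical group (Cogdell, Kim, Piatetski-Shapiro, Shahidi). Let `S` be the
set of the finite places at which `Π_v` is not a twist of an unramified representation, `γ_{i,v}` the Satake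
parameters at `v ∉ S` (of the unramified twist of `Π_v`), so that `Π_v` is tempered iff `|γ_{i,v}| = 1` for all
`i`. Write

  `M_v = max_i |γ_{i,v}|`,  `q_v = N v`,  `m = ⌊N / 2⌋`,

and let `C = Q² ∏_j (1 + |κ_j|)` be the analytic conductor of `L(s, Π × Π~)`: `Q²` is its conductor and
`∏_j Γ_ℝ(s + κ_j)` the Gamma factor of its functional equation. We show, with constants `A` which depend only on
`K`, `N`, the order of the pole of `L(s, Π × Π~)` at `s = 1`, and on `θ`, `B` in the last statement: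

* for every `X ≥ 3`: `∑_{v ∉ S, q_v ≤ X} (M_v² / q_v)^m ≤ A (1 + log log X + log C)`;
* for every `θ ≤ 1/2` and `X ≥ 3`, the number of the places `v ∉ S` with `q_v ≤ X` and `M_v ≥ q_v^θ` is at most
  `A (1 + log log X + log C) X^{m (1 - 2 θ)}`; so if `θ > 1/2 - 1/(2 m)`, all the places outside a set of
  power-saving counting function satisfy `M_v < q_v^θ`;
* for every `θ > 1/2 - 1/(2 m)`, `θ ≤ 1/2`, and every `B > 1 / (1 - m (1 - 2 θ))` there is a place `v ∉ S` with
  `q_v ≤ A (1 + log C)^B` and `M_v < q_v^θ`.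

For `N = 2, 3` every `θ > 0` is allowed. For `N = 4, 5` the threshold is `1/4`; the best bound known for all places is
`1/2 - 1/(N² + 1)` in general (Luo, Rudnick, Sarnak) and `9/22` for `N = 4` (Blomer, Brumley). The estimates are
uniform in `Π`, and a place as in the third statement is found among the places of norm at most a power of the
*logarithm* of the analytic conductor.

The structure `RankinSelberg` lists what is used of `Π`: `|γ_{i,v}| < q_v^{1/2}` and the absolute convergence of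
`L(s, Π × Π~)` for `Re s > 1` (Jacquet, Shalika); the local factors at `S` are `∏_i (1 - β_{i,v} q_v^{-s})⁻¹` with
`|β_{i,v}| < q_v`, with logarithms with nonnegative coefficients (Hoffstein, Ramakrishnan; Rudnick, Sarnak);
`(s (s - 1))^r L(s, Π × Π~)` is entire, of polynomial growth in vertical strips (the growth is not assumed to be
uniform in `Π`), and it has a functional equation with `N² [K : ℚ]` factors `Γ_ℝ(s + κ_j)`, `Re κ_j > -1`, the `κ_j`
closed under conjugation (Jacquet, Piatetski-Shapiro, Shalika; Moeglin, Waldspurger). `Unit'` says that the multiset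
of the parameters is stable under `z ↦ 1 / conj z` (the local components are unitary).

The proof: the functional equation and the Phragmén-Lindelöf principle give
`L(1 + δ, Π × Π~) ≤ A C² δ^{-r}` for `0 < δ ≤ 1`, so
`∑_{v, k} |p_k(γ_v)|² / (k q_v^{k (1 + δ)}) ≤ A (1 + log (1/δ) + log C)`, where `p_k` is the `k`-th power sum; we take
`δ = m / log X`. At most `m` of the numbers `γ_{i,v}` have absolute value `> 1`. By Newton's identities,
`M_v^k ≤ N |p_k(γ_v)|` for some `k ≤ m` if `M_v` is large, and `(M_v² / q_v)^m ≤ (M_v² / q_v)^k`. The third statement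
follows from the prime ideal theorem, because at most `2 log C` places divide the conductor.
-/

set_option autoImplicit false

namespace Pool.Agent.Results.MP_08cfa9_nt.MeanRadius

open NumberField IsDedekindDomain Pool.Agent.TH861.GL3 Pool.Agent.TH829.RA

/-- **The Ramanujan conjecture at almost all places, uniformly in the representation.** -/
theorem result (K : Type) [Field K] [NumberField K] (N r : ℕ) (hN : 2 ≤ N) :
    (∃ A : ℝ, 0 < A ∧ ∀ (S : Finset (HeightOneSpectrum (𝓞 K))) (γ : PL S → Fin N → ℂ)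
      (β : S → Fin (N ^ 2) → ℂ) (κ : Fin (N ^ 2 * Module.finrank ℚ K) → ℂ) (Q : ℝ),
      RankinSelberg r γ β κ Q → (∀ v, Unit' (γ v)) → ∀ X : ℝ, 3 ≤ X →
      (∀ F : Finset (PL S), (∀ v ∈ F, (qq v.1 : ℝ) ≤ X) →
        ∑ v ∈ F, (rad (γ v) ^ 2 / (qq v.1 : ℝ)) ^ (N / 2) ≤
          A * (1 + Real.log (Real.log X) + Real.log (cond κ Q))) ∧
      ∀ θ : ℝ, θ ≤ 1 / 2 →
        {v : PL S | (qq v.1 : ℝ) ≤ X ∧ (qq v.1 : ℝ) ^ θ ≤ rad (γ v)}.Finite ∧
        (({v : PL S | (qq v.1 : ℝ) ≤ X ∧ (qq v.1 : ℝ) ^ θ ≤ rad (γ v)}.ncard : ℕ) : ℝ) ≤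
          A * (1 + Real.log (Real.log X) + Real.log (cond κ Q)) * X ^ (((N / 2 : ℕ) : ℝ) * (1 - 2 * θ))) ∧
    ∀ θ B : ℝ, θ ≤ 1 / 2 → ((N / 2 : ℕ) : ℝ) * (1 - 2 * θ) < 1 →
      1 / (1 - ((N / 2 : ℕ) : ℝ) * (1 - 2 * θ)) < B →
      ∃ A : ℝ, 0 < A ∧ ∀ (S : Finset (HeightOneSpectrum (𝓞 K))) (γ : PL S → Fin N → ℂ)
        (β : S → Fin (N ^ 2) → ℂ) (κ : Fin (N ^ 2 * Module.finrank ℚ K) → ℂ) (Q : ℝ),
        RankinSelberg r γ β κ Q → (∀ v, Unit' (γ v)) → ∏ v ∈ S, (qq v : ℝ) ≤ Q ^ 2 →
        ∃ v : PL S, (qq v.1 : ℝ) ≤ A * (1 + Real.log (cond κ Q)) ^ B ∧ rad (γ v) < (qq v.1 : ℝ) ^ θ := by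
  refine ⟨?_, fun θ B hθ hc hB => ?_⟩
  · obtain ⟨A, hA, H⟩ := mertens_all K N r hN
    refine ⟨A, hA, fun S γ β κ Q h hU X hX => ⟨H S γ β κ Q h hU X hX, fun θ hθ => ⟨fin_le X _, ?_⟩⟩⟩
    exact count_of hθ (by linarith) (H S γ β κ Q h hU X hX)
  · obtain ⟨δ, hδ, hδ1, G⟩ := least_place K hθ hc hB
    obtain ⟨A, hA, H⟩ := mean_le K N r hN
    have hl : 0 ≤ Real.log (1 / δ) := Real.log_nonneg (by rw [le_div_iff₀ hδ]; linarith)
    obtain ⟨A', hA', G'⟩ := G (A * (1 + Real.log (1 / δ))) (by positivity)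
    refine ⟨A', hA', fun S γ β κ Q h hU hS => ?_⟩
    obtain ⟨h1, h2⟩ := H δ hδ hδ1 S γ β κ Q h hU
    have hL := Real.log_nonneg (one_le_cond h)
    refine G' S _ (by linarith) (card_S h.one_le hS) (fun v => rad (γ v)) (fun v => rad_nonneg _) h1 (h2.trans ?_)
    rw [mul_assoc]
    refine mul_le_mul_of_nonneg_left ?_ hA.le
    nlinarith [mul_nonneg hl hL]

end Pool.Agent.Results.MP_08cfa9_nt.MeanRadius
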