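import Mathlib
import Pool.Agent.TH949.RES.RAM2

/-!
# Nontempered components force many small Hecke eigenvalues

Let `n ≥ 2` and let `Π` be a unitary cuspidal automorphic representation of `GL_n` over `ℚ` (such a `Π` is globally
generic), unramified outside the finite set `S` of primes, with Satake parameters `α_{i,p}` and Hecke eigenvalues
`λ_p = ∑_i α_{i,p}`, `p ∉ S`. For instance `Π` may be the functorial lift of a globally generic cuspidal
representation of a classical group over `ℚ`, if this lift is cuspidal.

If a component `Π_v`, `v` any place of `ℚ`, ramified or not, is not tempered, then the local factor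
`L(s, Π_v × Π~_v)` has a real pole `x > 0` (twice the largest exponent of `Π_v`). We show: for every real `c` which is
smaller than `n² / (2 n² - 1)`, or smaller than a real pole of some local factor `L(s, Π_v × Π~_v)`,

* the series `∑_p max(0, 1 - |λ_p|²) p^{-c}`, `p ∉ S`, diverges;
* the number of the primes `p ≤ x`, `p ∉ S`, with `|λ_p| < 1` is not `O(x^c)`; for `n ≤ 3` the component `Π_p` is
  tempered at these primes.

The starting result of this problem has `c < 1/2` and, for `n > 3`, the primes at which some power sum
`∑_i α_{i,p}^k` is smaller than one; the poles of the local factors do not appear there.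

The structure `CuspidalRep` lists what is used of `Π`: the unramified components are unitary; the Rankin-Selberg
series converges absolutely for `Re s > 1`; `L(s, Π × Π~)` is entire except for a simple pole at `s = 1`, with
polynomial growth in vertical strips, and has its functional equation (Jacquet, Piatetski-Shapiro, Shalika; Moeglin,
Waldspurger). The Gamma factor `Γ_ℝ(s)` is the contribution of the trivial summand of `Π_∞ ⊗ Π~_∞`.

The proof: if the series converges at `c ≥ 1/2`, then Landau's lemma shows that `log (L(s, Π × Π~) / ζ(s))` is, up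
to finitely many Euler factors, an absolutely convergent Dirichlet series for `Re s > c`. So the completed function
has no real zero or pole to the right of `c`, and the unramified local factors converge there. For the exponent, put
`N = n²`, and integrate `L(1 - s, Π × Π~) exp((s - iT)² / D²)`, `D = T / log T`, multiplied by the finite Euler
factors, along `Re s = -D` and along `Re s = σ > c`. The former integral is `≍ D`. By the functional equation the
latter is an absolutely convergent combination of integrals of `γ(s) ζ(s) exp(-λ s) exp((s - iT)² / D²)`, `λ ≥ 0`,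
`γ` a quotient of `N` Gamma factors. Each of these we move to `Re s = 1 + ε` if `exp λ ≥ T^{N - 1/2}`, and to
`Re s = -ε` otherwise; there we expand `ζ(s)`, resp. `ζ(1 - s)`, and apply the second derivative test.
-/

set_option autoImplicit false

namespace Pool.Agent.Results.MP_08cfa9_nt.SmallEigenvaluesAllPlaces

open Pool.Agent.TH949.RES Pool.Agent.W189.TP

/-- **Nontempered components force many small Hecke eigenvalues.** -/
theorem result {n : ℕ} (hn : 2 ≤ n) (S : Finset Nat.Primes) (α : PS S → Fin n → ℂ)
    (β : Nat.Primes → Fin (n ^ 2) → ℂ) (κ : Fin (n ^ 2 - 1) → ℂ) (h : CuspidalRep S α β κ) (c : ℝ)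
    (hc : c < (n : ℝ) ^ 2 / (2 * (n : ℝ) ^ 2 - 1) ∨
      (∃ (p : PS S) (i : Fin n), c < 2 * |Real.logb ((p.1 : ℕ) : ℝ) ‖α p i‖|) ∨
      (∃ p ∈ S, ∃ (i : Fin (n ^ 2)) (x : ℝ), β p i = ((p : ℕ) : ℂ) ^ (x : ℂ) ∧ c < x) ∨
      ∃ (j : Fin (n ^ 2 - 1)) (x : ℝ), κ j = -(x : ℂ) ∧ c < x) :
    (¬ Summable fun p : PS S => max 0 (1 - ‖∑ i, α p i‖ ^ 2) * ((p.1 : ℕ) : ℝ) ^ (-c)) ∧
    (∀ C X : ℝ, ∃ x : ℝ, X ≤ x ∧
      C * x ^ c < (({p : PS S | ((p.1 : ℕ) : ℝ) ≤ x ∧ ‖∑ i, α p i‖ < 1}.ncard : ℕ) : ℝ)) ∧
    (n ≤ 3 → ∀ p, ‖∑ i, α p i‖ < 1 → ∀ i, ‖α p i‖ = 1) :=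
  ⟨ram_main' hn h hc, ram_count hn h hc, fun hn3 p hp => tempered23 hn hn3 (h.ne_zero p) (h.unitary p) hp⟩

end Pool.Agent.Results.MP_08cfa9_nt.SmallEigenvaluesAllPlaces
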