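import Mathlib
import Pool.Agent.TH949.TX.Rat4

/-!
# Generic cuspidal representations: small traces and tempered primes at every scale

Let `n ≥ 2` and let `Π` be a unitary cuspidal automorphic representation of `GL_n` over `ℚ` (every such `Π` is
globally generic), unramified outside the finite set `S` of primes, with Satake parameters `α_{i,p}`, `p ∉ S`. We show:
for every `c < 1/2`, every `λ > 0` and **all** large `X`,

  `∑_{X^{1-λ} ≤ p^k ≤ X} max(0, 1 - |α_{1,p}^k + ... + α_{n,p}^k|²) ≥ X^c`,

the sum being over the prime powers `p^k`, `p ∉ S`; in particular at least `X^c` prime powers in `[X^{1-λ}, X]` have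
`|α_{1,p}^k + ... + α_{n,p}^k| < 1`. If `n ≤ 3`, `Π_p` is tempered at such `p`, so that **for all large `X` at least
`X^c` primes `p ≤ X` are such that `Π_p` is tempered.** If `Π` violates the Ramanujan conjecture, more is true: the same
holds

* for `c < 2 |log_p |α_{i,p}||`, `p ∉ S`, and, more generally, for `c < x` if `x` is a real pole of the local factor of
  `L(s, Π × Π~)` at some place `v ≤ ∞` (for tempered `Π_v` all poles have real part `≤ 0`);
* for `c < Re ρ` if `ρ` is a zero or a pole of `L(s, Π × Π~) / ζ(s)`.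

For such exponents `c ≥ 1/2` the prime powers do not matter: the sum over the primes `p ∈ [X^{1-λ}, X]` is `≥ X^c`.

So far results of this kind (existence of infinitely many tempered primes, `n = 3`, Ramakrishnan; divergence of
`∑ p^{-c}` over the tempered primes; `C X^c` tempered primes `p ≤ X` for arbitrarily large `X`, as in
`SmallEigenvaluesAllPlaces`) say nothing about a given interval: they follow from Landau's lemma.

The structure `CuspidalRep` (from `SmallEigenvaluesAllPlaces`) lists what is used of `Π`; all of it is known for every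
unitary cuspidal `Π`: the local components are unitary; the Rankin-Selberg series converges absolutely for `Re s > 1`;
`L(s, Π × Π~)` is entire except for a simple pole at `s = 1`, of polynomial growth in vertical strips, and it
satisfies the functional equation, with Euler factors of degree `n²` at the primes of `S`. Nothing is assumed of
`L(s, Π × Π~) / ζ(s)` at the zeros of `ζ`.

The proof: let `F(s) = L(s, Π × Π~) / ζ(s)`, `log F(s) = ∑ d(q) q^{-s}`, so that `d(p^k) = (|∑_i α_{i,p}^k|² - 1) / k`.
Without singularities (zeros or poles) of `F` in `Re s > 1/2 - δ`, `|Im s| > T`, one would have `log F(s) = o(log t)`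
in `Re s ≥ σ > 1/2 - δ` (Poisson's formula for the upper bound, Borel-Carathéodory, Hadamard's three circles), which
contradicts the functional equation. A real pole `x > 0` of a local factor is a zero of `F` (for `v = p`, of `F` without
the Euler factor at `p`), as `L(s, Π × Π~)` is entire. Let `b ≥ 1/2` be the least upper bound of the real parts of the
singularities. The explicit formula for `∑ d(q) (log q) q^{-s} exp(-(log q - Y)² / 4 η Y)` is used at a real
point `s = σ` slightly to the left of `b`, where all terms from singularities are small or have a favourable sign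
(`F` has no real poles in `s ≥ 1/2`), and (if no real singularity is the rightmost one) at a point `σ + i t` close to
a singularity and such that a single term dominates: the first sum has real part `≤ o(1)`, the second one absolute
value `≥ 1/2 - o(1)`. Hence the negative `d(q)`, with `log q` close to `Y`, contribute.
-/

set_option autoImplicit false

namespace Pool.Agent.Results.MP_08cfa9_nt.TemperedEveryScale

open Pool.Agent.W189.TP (PS)
open Pool.Agent.TH949.RES (CuspidalRep)
open Pool.Agent.TH949.TX (Adm)

open scoped Classical in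
/-- **Small traces, and tempered primes for `n ≤ 3`, at every scale.** -/
theorem result {n : ℕ} (hn : 2 ≤ n) {S : Finset Nat.Primes} {α : PS S → Fin n → ℂ}
    {β : Nat.Primes → Fin (n ^ 2) → ℂ} {κ : Fin (n ^ 2 - 1) → ℂ} (h : CuspidalRep S α β κ) {c lam : ℝ}
    (hc : Adm S α β κ c) (hlam : 0 < lam) :
    (∃ X₀ : ℝ, ∀ X : ℝ, X₀ ≤ X → X ^ c ≤ ∑' x : PS S × ℕ,
      if X ^ (1 - lam) ≤ ((x.1.1 : ℕ) : ℝ) ^ (x.2 + 1) ∧ ((x.1.1 : ℕ) : ℝ) ^ (x.2 + 1) ≤ X then
        max 0 (1 - ‖∑ i, α x.1 i ^ (x.2 + 1)‖ ^ 2) else 0) ∧
    (1 / 2 ≤ c → ∃ X₀ : ℝ, ∀ X : ℝ, X₀ ≤ X → X ^ c ≤ ∑' p : PS S,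
      if X ^ (1 - lam) ≤ ((p.1 : ℕ) : ℝ) ∧ ((p.1 : ℕ) : ℝ) ≤ X then max 0 (1 - ‖∑ i, α p i‖ ^ 2) else 0) ∧
    (n ≤ 3 → ∃ X₀ : ℝ, ∀ X : ℝ, X₀ ≤ X → X ^ c ≤
      (({p : PS S | ((p.1 : ℕ) : ℝ) ≤ X ∧ ∀ i, ‖α p i‖ = 1}.ncard : ℕ) : ℝ)) := by
  obtain ⟨h1, h2, h3⟩ := Pool.Agent.TH949.TX.rat_fin (Pool.Agent.TH949.TX.adm_key hn h hc hlam)
  exact ⟨Filter.eventually_atTop.1 h1, fun hc2 => Filter.eventually_atTop.1 (h2 hc2),
    fun hn3 => Filter.eventually_atTop.1 (h3 (fun p => ∀ i, ‖α p i‖ = 1) fun p k hk =>
      Pool.Agent.TH949.TX.temp_of_pow' hn3 (h.ne_zero p) (h.unitary p) (k := k + 1) (by omega) hk hn)⟩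

end Pool.Agent.Results.MP_08cfa9_nt.TemperedEveryScale
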