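import Mathlib
import Pool.Agent.TH949.TX.GL3b

/-!
# Generic cuspidal representations: tempered places of `GL_3` over a number field at every scale

Let `K` be a number field and `π` a unitary cuspidal automorphic representation of `GL_3` over `K` (every such `π` is
globally generic), unramified outside the finite set `S` of finite places, with Satake parameters `α_{i,v}`, `v ∉ S`.
Write `N v` for the norm of `v` (`qq v` below). We show: for every `c < 1/2` and **all** large `X`, at least `X^c`
places `v` with `N v ≤ X` are such that `π_v` is tempered. More precisely, for every `λ > 0`,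

  `∑_{X^{1-λ} ≤ (N v)^k ≤ X} max(0, 1 - |α_{1,v}^k + α_{2,v}^k + α_{3,v}^k|²) ≥ X^c`,

for all large `X`, and `π_v` is tempered at the places which contribute. The same holds for `c < Re ρ` if `ρ` is a
zero or a pole, not real, of the partial adjoint `L`-function `L^S(s, π, Ad)`.

So far it was known that there are infinitely many places at which `π_v` is tempered (Ramakrishnan), and that their
number up to `X` exceeds `X^c`, `c < 1/2 + 1/(16 [K : ℚ])`, for arbitrarily large `X` (`SmallEigenvaluesGL3`,
`MP_8410ab_nt`, of this run; `K = ℚ`, `c < 1/2` before); such results say nothing about a given `X`. For `K = ℚ` and all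
`n ≥ 2` see `TemperedEveryScale`, where no property of the adjoint `L`-function is used.

The structure `AdjointGL3` lists what is used of `π`; all of it is known: the local components are unitary; the
Rankin-Selberg series converges absolutely for `Re s > 1`; the adjoint `L`-function
`L(s, π, Ad) = L(s, π × π~) / ζ_K(s)` is meromorphic in the plane, of finite order, satisfies the functional equation,
has polynomial growth in vertical strips, and is holomorphic for `Re s ≥ 1/2` and for `|Im s|` large (Ginzburg-Jiang,
Hundley-Zhang).

The proof is described in `TemperedEveryScale`: an explicit formula with a Gaussian weight at a real point, where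
no singularity counts, and at a complex point, where one singularity dominates; that there are singularities near the
line `Re s = 1/2` follows from the functional equation.
-/

set_option autoImplicit false

namespace Pool.Agent.Results.MP_08cfa9_nt.TemperedEveryScaleGL3

open NumberField IsDedekindDomain Pool.Agent.TH861.GL3
open Pool.Agent.TH949.TX (AdjointGL3 OffLine3)

open scoped Classical in
/-- **Tempered places of `GL_3` over a number field at every scale.** -/
theorem result {K : Type*} [Field K] [NumberField K] {S : Finset (HeightOneSpectrum (𝓞 K))}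
    {α : PL S → Fin 3 → ℂ} (h : AdjointGL3 α) {c lam : ℝ} (hc : c < 1 / 2 ∨ OffLine3 α c) (hlam : 0 < lam) :
    (∃ X₀ : ℝ, ∀ X : ℝ, X₀ ≤ X → X ^ c ≤ ∑' x : PL S × ℕ,
      if X ^ (1 - lam) ≤ (qq x.1.1 : ℝ) ^ (x.2 + 1) ∧ (qq x.1.1 : ℝ) ^ (x.2 + 1) ≤ X then
        max 0 (1 - ‖∑ i, α x.1 i ^ (x.2 + 1)‖ ^ 2) else 0) ∧
    ∃ X₀ : ℝ, ∀ X : ℝ, X₀ ≤ X → X ^ c ≤
      (({v : PL S | (qq v.1 : ℝ) ≤ X ∧ ∀ i, ‖α v i‖ = 1}.ncard : ℕ) : ℝ) := by
  obtain ⟨h1, h2⟩ := Pool.Agent.TH949.TX.gl3_main h hc hlam
  exact ⟨Filter.eventually_atTop.1 h1, Filter.eventually_atTop.1 h2⟩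

end Pool.Agent.Results.MP_08cfa9_nt.TemperedEveryScaleGL3
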